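import Mathlib
import Pool.Agent.H.MP_27f3b7_al.A

namespace Pool.Agent.Results.MP_27f3b7_al.Yes

theorem result (G : Type) [Group G] [Finite G] [Group.IsNilpotent G] (α : MulAut G) (t : G)
    (A : Equiv.Perm G) (hA : ∀ x, A x = t * α x) :
    ∃ x : G, Function.minimalPeriod A x = orderOf A :=
  Pool.Agent.H.MP_27f3b7_al.main α t A hA

end Pool.Agent.Results.MP_27f3b7_al.Yes
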